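import Mathlib
import Pool.Agent.Helper876.Surf

set_option autoImplicit false

namespace Pool.Agent.Results.MP_8228af_gt.Hlawka

open MeasureTheory Set Filter Topology
open scoped Pointwise
open Pool.Agent.Helper876.Surf

/-- The octahedron of radius `r`. -/
def octa (r : ℝ) : Set E3 := {x | |x 0| + |x 1| + |x 2| ≤ r}

/-- The truncated octahedron. -/
def trunc : Set E3 := {x | |x 0| + |x 1| + |x 2| ≤ 13/12 ∧ |x 0| ≤ 2/3 ∧ |x 1| ≤ 2/3 ∧ |x 2| ≤ 2/3}

/-- Surface area of a convex body in `ℝ³`: the two-dimensional Hausdorff measure, normalised so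
that it agrees with Lebesgue measure on planes, of its boundary. -/
noncomputable def surfaceArea (C : Set (EuclideanSpace ℝ (Fin 3))) : ENNReal :=
  μHE[2] (frontier C)

/-- A convex body in `ℝ³` that is symmetric about the origin. -/
structure IsSymmetricConvexBody (C : Set (EuclideanSpace ℝ (Fin 3))) : Prop where
  compact : IsCompact C
  convex : Convex ℝ C
  interior_nonempty : (interior C).Nonempty
  symmetric : ∀ x ∈ C, -x ∈ C

lemma cont_l1 : Continuous (fun x : E3 => |x 0| + |x 1| + |x 2|) := by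
  have h : ∀ i : Fin 3, Continuous (fun x : E3 => |x i|) := fun i => continuous_abs.comp (by fun_prop)
  exact ((h 0).add (h 1)).add (h 2)

lemma cont_abs (i : Fin 3) : Continuous (fun x : E3 => |x i|) := continuous_abs.comp (by fun_prop)

lemma isClosed_octa (r : ℝ) : IsClosed (octa r) := isClosed_le cont_l1 continuous_const

lemma isClosed_trunc : IsClosed trunc :=
  (isClosed_le cont_l1 continuous_const).inter ((isClosed_le (cont_abs 0) continuous_const).inter
    ((isClosed_le (cont_abs 1) continuous_const).inter (isClosed_le (cont_abs 2) continuous_const)))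

lemma isCompact_octa (r : ℝ) : IsCompact (octa r) := by
  rw [Metric.isCompact_iff_isClosed_bounded]
  refine ⟨isClosed_octa r, ?_⟩
  refine (Metric.isBounded_closedBall (x := (0 : E3)) (r := r)).subset ?_
  intro x hx
  simp only [octa, mem_ofPred_eq] at hx
  have h0 := abs_nonneg (x 0)
  have h1 := abs_nonneg (x 1)
  have h2 := abs_nonneg (x 2)
  rw [mem_closedBall_zero_iff]
  apply le_of_sq_le_sq _ (by linarith)
  rw [EuclideanSpace.norm_sq_eq, Fin.sum_univ_three]
  simp only [Real.norm_eq_abs]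
  nlinarith [mul_nonneg h0 h1, mul_nonneg h0 h2, mul_nonneg h1 h2]

lemma trunc_sub : trunc ⊆ octa (13/12) := fun _ hx => hx.1

lemma isCompact_trunc : IsCompact trunc :=
  (isCompact_octa _).of_isClosed_subset isClosed_trunc trunc_sub

lemma convex_octa (r : ℝ) : Convex ℝ (octa r) := by
  intro x hx y hy a b ha hb hab
  simp only [octa, mem_ofPred_eq, PiLp.add_apply, PiLp.smul_apply, smul_eq_mul] at *
  have key : ∀ i : Fin 3, |a * x i + b * y i| ≤ a * |x i| + b * |y i| := fun i => by
    calc |a * x i + b * y i| ≤ |a * x i| + |b * y i| := abs_add_le _ _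
      _ = a * |x i| + b * |y i| := by rw [abs_mul, abs_mul, abs_of_nonneg ha, abs_of_nonneg hb]
  have k0 := key 0
  have k1 := key 1
  have k2 := key 2
  have m1 := mul_le_mul_of_nonneg_left hx ha
  have m2 := mul_le_mul_of_nonneg_left hy hb
  have : a * r + b * r = r := by rw [← add_mul, hab, one_mul]
  nlinarith

lemma convex_trunc : Convex ℝ trunc := by
  intro x hx y hy a b ha hb hab
  have hsum := convex_octa (13/12) hx.1 hy.1 ha hb hab
  obtain ⟨_, x0, x1, x2⟩ := hx
  obtain ⟨_, y0, y1, y2⟩ := hy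
  have key : ∀ i : Fin 3, |x i| ≤ 2/3 → |y i| ≤ 2/3 → |(a • x + b • y) i| ≤ 2/3 := by
    intro i h1 h2
    simp only [PiLp.add_apply, PiLp.smul_apply, smul_eq_mul]
    calc |a * x i + b * y i| ≤ |a * x i| + |b * y i| := abs_add_le _ _
      _ = a * |x i| + b * |y i| := by rw [abs_mul, abs_mul, abs_of_nonneg ha, abs_of_nonneg hb]
      _ ≤ a * (2/3) + b * (2/3) := by gcongr
      _ = 2/3 := by rw [← add_mul, hab, one_mul]
  exact ⟨hsum, key 0 x0 y0, key 1 x1 y1, key 2 x2 y2⟩

lemma body_octa : IsSymmetricConvexBody (octa 1) where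
  compact := isCompact_octa 1
  convex := convex_octa 1
  interior_nonempty := by
    refine ⟨0, interior_maximal (t := {x : E3 | |x 0| + |x 1| + |x 2| < 1}) ?_
      (isOpen_lt cont_l1 continuous_const) ?_⟩
    · intro x hx
      simp only [mem_ofPred_eq] at hx
      exact hx.le
    · simp
  symmetric := by
    intro x hx
    simpa [octa] using hx

lemma body_trunc : IsSymmetricConvexBody trunc where
  compact := isCompact_trunc
  convex := convex_trunc
  interior_nonempty := by
    refine ⟨0, interior_maximal (t := {x : E3 | |x 0| + |x 1| + |x 2| < 2/3}) ?_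
      (isOpen_lt cont_l1 continuous_const) ?_⟩
    · intro x hx
      simp only [mem_ofPred_eq] at hx
      have h0 := abs_nonneg (x 0)
      have h1 := abs_nonneg (x 1)
      have h2 := abs_nonneg (x 2)
      exact ⟨by linarith, by linarith, by linarith, by linarith⟩
    · simp
  symmetric := by
    intro x hx
    simpa [trunc] using hx

/-- signs -/
def sg (b : Bool) : ℝ := if b then 1 else -1

lemma sg_abs (b : Bool) : |sg b| = 1 := by cases b <;> simp [sg]
lemma sg_sq (b : Bool) : sg b * sg b = 1 := by cases b <;> simp [sg]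

lemma exists_sg (x : ℝ) : ∃ b, sg b * x = |x| := by
  rcases le_total 0 x with h | h
  · exact ⟨true, by simp [sg, abs_of_nonneg h]⟩
  · exact ⟨false, by simp [sg, abs_of_nonpos h]⟩

/-! ### Affine images -/

variable (A : E3 ≃ᵃ[ℝ] E3)

/-- images of the basis vectors -/
noncomputable def pv (i : Fin 3) : E3 := A.linear (EuclideanSpace.single i 1)

lemma A_apply (x : E3) : A x = A 0 + (x 0 • pv A 0 + x 1 • pv A 1 + x 2 • pv A 2) := by
  have h1 : A x = A.linear x + A 0 := by
    have := A.map_vadd 0 x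
    simpa using this
  have h2 : x = x 0 • EuclideanSpace.single 0 1 + x 1 • EuclideanSpace.single 1 1 +
      x 2 • (EuclideanSpace.single 2 1 : E3) := by
    ext i
    fin_cases i <;> simp
  rw [h1, add_comm]
  congr 1
  conv_lhs => rw [h2]
  simp only [map_add, map_smul, pv]

/-- the point of the plane `∑ σᵢ xᵢ = r` with given first two (signed) coordinates -/
noncomputable def fac (b : Bool × Bool × Bool) (r : ℝ) (p : ℝ × ℝ) : E3 :=
  WithLp.toLp 2 ![sg b.1 * p.1, sg b.2.1 * p.2, sg b.2.2 * (r - p.1 - p.2)]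

/-- the normal vectors of the octahedral facets -/
noncomputable def nv (b : Bool × Bool × Bool) : ℝ :=
  ‖sg b.1 • cr (pv A 1) (pv A 2) + sg b.2.1 • cr (pv A 2) (pv A 0) + sg b.2.2 • cr (pv A 0) (pv A 1)‖

lemma area_fac (b : Bool × Bool × Bool) (r : ℝ) (S : Set (ℝ × ℝ)) (hS : MeasurableSet S) :
    μHE[2] (A '' ((fac b r) '' S)) = ENNReal.ofReal (nv A b) * volume S := by
  have h1 : A '' ((fac b r) '' S) = (fun p : ℝ × ℝ => (A 0 + (sg b.2.2 * r) • pv A 2) +
      (p.1 • (sg b.1 • pv A 0 - sg b.2.2 • pv A 2) +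
        p.2 • (sg b.2.1 • pv A 1 - sg b.2.2 • pv A 2))) '' S := by
    rw [← Set.image_comp]
    apply Set.image_congr
    intro p _
    simp only [Function.comp]
    rw [A_apply]
    have e0 : fac b r p 0 = sg b.1 * p.1 := rfl
    have e1 : fac b r p 1 = sg b.2.1 * p.2 := rfl
    have e2 : fac b r p 2 = sg b.2.2 * (r - p.1 - p.2) := rfl
    rw [e0, e1, e2]
    module
  rw [h1, area_piece _ _ _ S hS]
  congr 2
  have h2 : cr (sg b.1 • pv A 0 - sg b.2.2 • pv A 2) (sg b.2.1 • pv A 1 - sg b.2.2 • pv A 2) =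
      (sg b.1 * sg b.2.1 * sg b.2.2) • (sg b.1 • cr (pv A 1) (pv A 2) +
        sg b.2.1 • cr (pv A 2) (pv A 0) + sg b.2.2 • cr (pv A 0) (pv A 1)) := by
    have s0 := sg_sq b.1
    have s1 := sg_sq b.2.1
    have s2 := sg_sq b.2.2
    generalize sg b.1 = s at *
    generalize sg b.2.1 = t at *
    generalize sg b.2.2 = u at *
    generalize pv A 0 = a at *
    generalize pv A 1 = c at *
    generalize pv A 2 = e at *
    ext i
    fin_cases i
    · simp [cr]
      linear_combination -((t * u * (e 2 * c 1 - e 1 * c 2)) * s0 + (s * u * (e 1 * a 2 - e 2 * a 1)) * s1 + (s * t * (a 1 * c 2 - a 2 * c 1)) * s2)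
    · simp [cr]
      linear_combination -((t * u * (e 0 * c 2 - e 2 * c 0)) * s0 + (s * u * (e 2 * a 0 - e 0 * a 2)) * s1 + (s * t * (a 2 * c 0 - a 0 * c 2)) * s2)
    · simp [cr]
      linear_combination -((t * u * (e 1 * c 0 - e 0 * c 1)) * s0 + (s * u * (e 0 * a 1 - e 1 * a 0)) * s1 + (s * t * (a 0 * c 1 - a 1 * c 0)) * s2)
  rw [h2, norm_smul, nv]
  simp only [norm_mul, Real.norm_eq_abs, sg_abs, one_mul]

/-! ### The frontiers -/

/-- square facets -/
noncomputable def sqf (i : Fin 3) (b : Bool) (p : ℝ × ℝ) : E3 :=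
  if i = 0 then WithLp.toLp 2 ![sg b * (2/3), p.1, p.2]
  else if i = 1 then WithLp.toLp 2 ![p.1, sg b * (2/3), p.2]
  else WithLp.toLp 2 ![p.1, p.2, sg b * (2/3)]

/-- norms of the normals of the square facets -/
noncomputable def mv (i : Fin 3) : ℝ :=
  if i = 0 then ‖cr (pv A 1) (pv A 2)‖
  else if i = 1 then ‖cr (pv A 0) (pv A 2)‖
  else ‖cr (pv A 0) (pv A 1)‖

lemma area_sqf (i : Fin 3) (b : Bool) (S : Set (ℝ × ℝ)) (hS : MeasurableSet S) :
    μHE[2] (A '' ((sqf i b) '' S)) = ENNReal.ofReal (mv A i) * volume S := by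
  fin_cases i
  · have h1 : A '' ((sqf 0 b) '' S) = (fun p : ℝ × ℝ => (A 0 + (sg b * (2/3)) • pv A 0) +
      (p.1 • pv A 1 + p.2 • pv A 2)) '' S := by
      rw [← Set.image_comp]
      apply Set.image_congr
      intro p _
      simp only [Function.comp]
      rw [A_apply]
      have e0 : sqf 0 b p 0 = sg b * (2/3) := rfl
      have e1 : sqf 0 b p 1 = p.1 := rfl
      have e2 : sqf 0 b p 2 = p.2 := rfl
      rw [e0, e1, e2]
      module
    exact (congrArg _ h1).trans (area_piece _ _ _ S hS)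
  · have h1 : A '' ((sqf 1 b) '' S) = (fun p : ℝ × ℝ => (A 0 + (sg b * (2/3)) • pv A 1) +
      (p.1 • pv A 0 + p.2 • pv A 2)) '' S := by
      rw [← Set.image_comp]
      apply Set.image_congr
      intro p _
      simp only [Function.comp]
      rw [A_apply]
      have e0 : sqf 1 b p 0 = p.1 := rfl
      have e1 : sqf 1 b p 1 = sg b * (2/3) := rfl
      have e2 : sqf 1 b p 2 = p.2 := rfl
      rw [e0, e1, e2]
      module
    exact (congrArg _ h1).trans (area_piece _ _ _ S hS)
  · have h1 : A '' ((sqf 2 b) '' S) = (fun p : ℝ × ℝ => (A 0 + (sg b * (2/3)) • pv A 2) +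
      (p.1 • pv A 0 + p.2 • pv A 1)) '' S := by
      rw [← Set.image_comp]
      apply Set.image_congr
      intro p _
      simp only [Function.comp]
      rw [A_apply]
      have e0 : sqf 2 b p 0 = p.1 := rfl
      have e1 : sqf 2 b p 1 = p.2 := rfl
      have e2 : sqf 2 b p 2 = sg b * (2/3) := rfl
      rw [e0, e1, e2]
      module
    exact (congrArg _ h1).trans (area_piece _ _ _ S hS)

lemma mem_sqS {a b c : ℝ} (h : |a| + |b| + |c| ≤ 13/12) (ha : |a| = 2/3) : (b, c) ∈ sqS := by
  simp only [sqS, mem_ofPred_eq]; linarith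

/-- the frontier of the truncated octahedron is covered by its facets -/
lemma frontier_trunc_sub : frontier trunc ⊆
    (⋃ b : Bool × Bool × Bool, (fac b (13/12)) '' hexS) ∪ ⋃ ib : Fin 3 × Bool, (sqf ib.1 ib.2) '' sqS := by
  intro x hx
  have hxT : x ∈ trunc := isClosed_trunc.frontier_subset hx
  obtain ⟨hs, h0, h1, h2⟩ := hxT
  have hsq : ∀ t : ℝ, |t| = 2/3 → ∃ b, t = sg b * (2/3) := by
    intro t ht
    obtain ⟨b, hb⟩ := exists_sg t
    refine ⟨b, ?_⟩
    rw [← ht, ← hb, ← mul_assoc, sg_sq, one_mul]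
  by_cases c0 : |x 0| = 2/3
  · obtain ⟨b, hb⟩ := hsq _ c0
    refine Or.inr (mem_iUnion.2 ⟨(0, b), (x 1, x 2), mem_sqS hs c0, ?_⟩)
    ext i
    fin_cases i
    · exact hb.symm
    · rfl
    · rfl
  by_cases c1 : |x 1| = 2/3
  · obtain ⟨b, hb⟩ := hsq _ c1
    refine Or.inr (mem_iUnion.2 ⟨(1, b), (x 0, x 2), mem_sqS (by linarith) c1, ?_⟩)
    ext i
    fin_cases i
    · rfl
    · exact hb.symm
    · rfl
  by_cases c2 : |x 2| = 2/3
  · obtain ⟨b, hb⟩ := hsq _ c2
    refine Or.inr (mem_iUnion.2 ⟨(2, b), (x 0, x 1), mem_sqS (by linarith) c2, ?_⟩)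
    ext i
    fin_cases i
    · rfl
    · rfl
    · exact hb.symm
  have hsum : |x 0| + |x 1| + |x 2| = 13/12 := by
    by_contra hne
    have hlt : |x 0| + |x 1| + |x 2| < 13/12 := lt_of_le_of_ne hs hne
    have hopen : IsOpen ({x : E3 | |x 0| + |x 1| + |x 2| < 13/12} ∩ {x : E3 | |x 0| < 2/3} ∩
        {x : E3 | |x 1| < 2/3} ∩ {x : E3 | |x 2| < 2/3}) :=
      (((isOpen_lt cont_l1 continuous_const).inter (isOpen_lt (cont_abs 0) continuous_const)).inter
        (isOpen_lt (cont_abs 1) continuous_const)).inter (isOpen_lt (cont_abs 2) continuous_const)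
    have hint : x ∈ interior trunc := by
      refine interior_maximal ?_ hopen ⟨⟨⟨hlt, lt_of_le_of_ne h0 c0⟩, lt_of_le_of_ne h1 c1⟩,
        lt_of_le_of_ne h2 c2⟩
      rintro y ⟨⟨⟨a, b⟩, c⟩, d⟩
      simp only [mem_ofPred_eq] at a b c d
      exact ⟨a.le, b.le, c.le, d.le⟩
    exact hx.2 hint
  obtain ⟨b0, hb0⟩ := exists_sg (x 0)
  obtain ⟨b1, hb1⟩ := exists_sg (x 1)
  obtain ⟨b2, hb2⟩ := exists_sg (x 2)
  refine Or.inl (mem_iUnion.2 ⟨(b0, b1, b2), (|x 0|, |x 1|), ?_, ?_⟩)
  · have a0 := abs_nonneg (x 0)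
    have a1 := abs_nonneg (x 1)
    have a2 := abs_nonneg (x 2)
    exact ⟨⟨by simp, h0⟩, ⟨by simp, h1⟩, by simp only; linarith, by simp only; linarith⟩
  · have k : 13/12 - |x 0| - |x 1| = |x 2| := by linarith
    ext i
    fin_cases i
    · show sg b0 * |x 0| = x 0
      rw [← hb0, ← mul_assoc, sg_sq, one_mul]
    · show sg b1 * |x 1| = x 1
      rw [← hb1, ← mul_assoc, sg_sq, one_mul]
    · show sg b2 * (13/12 - |x 0| - |x 1|) = x 2
      rw [k, ← hb2, ← mul_assoc, sg_sq, one_mul]

/-- relatively open facet of the octahedron -/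
def openFacet (b : Bool × Bool × Bool) : Set E3 :=
  {x | 0 < sg b.1 * x 0 ∧ 0 < sg b.2.1 * x 1 ∧ 0 < sg b.2.2 * x 2 ∧
    sg b.1 * x 0 + sg b.2.1 * x 1 + sg b.2.2 * x 2 = 1}

lemma openFacet_eq (b : Bool × Bool × Bool) : openFacet b = (fac b 1) '' triS := by
  have s0 := sg_sq b.1
  have s1 := sg_sq b.2.1
  have s2 := sg_sq b.2.2
  ext x
  constructor
  · rintro ⟨h0, h1, h2, h3⟩
    refine ⟨(sg b.1 * x 0, sg b.2.1 * x 1), ⟨h0, h1, by simp only; linarith⟩, ?_⟩
    have k : 1 - sg b.1 * x 0 - sg b.2.1 * x 1 = sg b.2.2 * x 2 := by linarith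
    ext i
    fin_cases i
    · show sg b.1 * (sg b.1 * x 0) = x 0
      rw [← mul_assoc, s0, one_mul]
    · show sg b.2.1 * (sg b.2.1 * x 1) = x 1
      rw [← mul_assoc, s1, one_mul]
    · show sg b.2.2 * (1 - sg b.1 * x 0 - sg b.2.1 * x 1) = x 2
      rw [k, ← mul_assoc, s2, one_mul]
  · rintro ⟨p, ⟨h0, h1, h2⟩, rfl⟩
    have e0 : fac b 1 p 0 = sg b.1 * p.1 := rfl
    have e1 : fac b 1 p 1 = sg b.2.1 * p.2 := rfl
    have e2 : fac b 1 p 2 = sg b.2.2 * (1 - p.1 - p.2) := rfl
    simp only [openFacet, mem_ofPred_eq, e0, e1, e2, ← mul_assoc, s0, s1, s2, one_mul]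
    exact ⟨h0, h1, by linarith, by ring⟩

lemma meas_openFacet (b : Bool × Bool × Bool) : MeasurableSet (openFacet b) := by
  have c0 : Continuous (fun x : E3 => sg b.1 * x 0) := by fun_prop
  have c1 : Continuous (fun x : E3 => sg b.2.1 * x 1) := by fun_prop
  have c2 : Continuous (fun x : E3 => sg b.2.2 * x 2) := by fun_prop
  exact (isOpen_lt continuous_const c0).measurableSet.inter
    ((isOpen_lt continuous_const c1).measurableSet.inter
      ((isOpen_lt continuous_const c2).measurableSet.inter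
        (isClosed_eq ((c0.add c1).add c2) continuous_const).measurableSet))

lemma openFacet_sub (b : Bool × Bool × Bool) : openFacet b ⊆ frontier (octa 1) := by
  rintro x ⟨h0, h1, h2, h3⟩
  have habs : ∀ (c : Bool) (t : ℝ), 0 < sg c * t → |t| = sg c * t := by
    intro c t ht
    have : |sg c * t| = |t| := by rw [abs_mul, sg_abs, one_mul]
    rw [← this, abs_of_pos ht]
  have hsum : |x 0| + |x 1| + |x 2| = 1 := by
    rw [habs _ _ h0, habs _ _ h1, habs _ _ h2]; exact h3
  rw [(isClosed_octa 1).frontier_eq]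
  refine ⟨hsum.le, ?_⟩
  intro hint
  have hcont : Continuous (fun t : ℝ => t • x) := by fun_prop
  have hopen : IsOpen ((fun t : ℝ => t • x) ⁻¹' interior (octa 1)) :=
    isOpen_interior.preimage hcont
  obtain ⟨ε, hε, hb⟩ := Metric.isOpen_iff.1 hopen 1 (by simpa using hint)
  have h5 : (1 + ε / 2) ∈ Metric.ball (1:ℝ) ε := by
    rw [Metric.mem_ball, Real.dist_eq]
    rw [show 1 + ε / 2 - 1 = ε / 2 by ring, abs_of_pos (by positivity)]; linarith
  have h6 := interior_subset (hb h5)
  simp only [octa, mem_ofPred_eq, PiLp.smul_apply, smul_eq_mul, abs_mul,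
    abs_of_pos (show (0:ℝ) < 1 + ε / 2 by positivity)] at h6
  nlinarith

lemma disjoint_openFacet {b b' : Bool × Bool × Bool} (h : b ≠ b') :
    Disjoint (openFacet b) (openFacet b') := by
  rw [Set.disjoint_left]
  rintro x ⟨h0, h1, h2, _⟩ ⟨g0, g1, g2, _⟩
  apply h
  have key : ∀ (c c' : Bool) (t : ℝ), 0 < sg c * t → 0 < sg c' * t → c = c' := by
    intro c c' t h h'
    cases c <;> cases c' <;> simp [sg] at h h' ⊢ <;> linarith
  exact Prod.ext (key _ _ _ h0 g0) (Prod.ext (key _ _ _ h1 g1) (key _ _ _ h2 g2))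

/-- an affine equivalence as a homeomorphism -/
lemma image_frontier (C : Set E3) : frontier (A '' C) = A '' frontier C := by
  have h := (ContinuousAffineEquiv.toHomeomorph (AffineEquiv.toContinuousAffineEquiv A)).image_frontier C
  exact h.symm

lemma nv_nonneg (b : Bool × Bool × Bool) : 0 ≤ nv A b := norm_nonneg _

lemma mv_nonneg (i : Fin 3) : 0 ≤ mv A i := by
  unfold mv; split_ifs <;> exact norm_nonneg _

lemma upper : surfaceArea (A '' trunc) ≤
    ENNReal.ofReal (∑ b, nv A b * (47/144) + ∑ ib : Fin 3 × Bool, mv A ib.1 * (25/72)) := by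
  unfold surfaceArea
  rw [image_frontier]
  calc μHE[2] (A '' frontier trunc) ≤ μHE[2] ((⋃ b : Bool × Bool × Bool, A '' ((fac b (13/12)) '' hexS)) ∪
        ⋃ ib : Fin 3 × Bool, A '' ((sqf ib.1 ib.2) '' sqS)) := by
        apply measure_mono
        rw [← Set.image_iUnion, ← Set.image_iUnion, ← Set.image_union]
        exact Set.image_mono frontier_trunc_sub
    _ ≤ ∑ b : Bool × Bool × Bool, μHE[2] (A '' ((fac b (13/12)) '' hexS)) +
        ∑ ib : Fin 3 × Bool, μHE[2] (A '' ((sqf ib.1 ib.2) '' sqS)) :=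
        (measure_union_le _ _).trans (add_le_add (measure_iUnion_fintype_le _ _)
          (measure_iUnion_fintype_le _ _))
    _ ≤ ∑ b : Bool × Bool × Bool, ENNReal.ofReal (nv A b * (47/144)) +
        ∑ ib : Fin 3 × Bool, ENNReal.ofReal (mv A ib.1 * (25/72)) := by
        gcongr with b _ ib _
        · rw [area_fac A b _ _ meas_hexS, vol_hexS, ← ENNReal.ofReal_mul (nv_nonneg A b)]
        · rw [area_sqf A ib.1 ib.2 _ meas_sqS, ENNReal.ofReal_mul (mv_nonneg A ib.1)]
          gcongr
          exact vol_sqS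
    _ = _ := by
        rw [← ENNReal.ofReal_sum_of_nonneg (fun b _ => mul_nonneg (nv_nonneg A b) (by norm_num)),
          ← ENNReal.ofReal_sum_of_nonneg (fun ib _ => mul_nonneg (mv_nonneg A ib.1) (by norm_num)),
          ← ENNReal.ofReal_add (Finset.sum_nonneg fun b _ => mul_nonneg (nv_nonneg A b) (by norm_num))
            (Finset.sum_nonneg fun ib _ => mul_nonneg (mv_nonneg A ib.1) (by norm_num))]

lemma lower : ENNReal.ofReal (∑ b, nv A b * (1/2)) ≤ surfaceArea (A '' octa 1) := by
  unfold surfaceArea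
  rw [image_frontier]
  have hmeas : ∀ b, MeasurableSet (A '' openFacet b) := by
    intro b
    have : A '' openFacet b = A.symm ⁻¹' openFacet b := by
      ext x
      constructor
      · rintro ⟨y, hy, rfl⟩; simpa using hy
      · intro hx; exact ⟨A.symm x, hx, by simp⟩
    rw [this]
    have hc : Continuous (A.symm : E3 → E3) :=
      (AffineEquiv.toContinuousAffineEquiv A.symm).continuous
    exact hc.measurable (meas_openFacet b)
  have hdisj : Pairwise (Function.onFun Disjoint (fun b => A '' openFacet b)) := by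
    intro b b' hbb
    exact (Set.disjoint_image_iff A.injective).2 (disjoint_openFacet hbb)
  calc ENNReal.ofReal (∑ b, nv A b * (1/2)) = ∑ b, μHE[2] (A '' openFacet b) := by
        rw [ENNReal.ofReal_sum_of_nonneg (fun b _ => mul_nonneg (nv_nonneg A b) (by norm_num))]
        apply Finset.sum_congr rfl
        intro b _
        rw [openFacet_eq, area_fac A b _ _ meas_triS, vol_triS, ENNReal.ofReal_mul (nv_nonneg A b)]
    _ = μHE[2] (⋃ b, A '' openFacet b) := by
        rw [measure_iUnion hdisj hmeas, tsum_fintype]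
    _ ≤ μHE[2] (A '' frontier (octa 1)) := by
        apply measure_mono
        rw [← Set.image_iUnion]
        exact Set.image_mono (Set.iUnion_subset openFacet_sub)

lemma sum_ineq : ∑ b, nv A b * (47/144) + ∑ ib : Fin 3 × Bool, mv A ib.1 * (25/72) ≤
    ∑ b, nv A b * (1/2) := by
  have h := hlawka' (cr (pv A 1) (pv A 2)) (cr (pv A 2) (pv A 0)) (cr (pv A 0) (pv A 1))
  have hcr : ‖cr (pv A 0) (pv A 2)‖ = ‖cr (pv A 2) (pv A 0)‖ := by
    have : cr (pv A 0) (pv A 2) = -cr (pv A 2) (pv A 0) := by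
      ext i
      fin_cases i <;> simp [cr] <;> ring
    rw [this, norm_neg]
  simp only [Fintype.sum_prod_type, Fintype.sum_bool, Fin.sum_univ_three, mv, nv, sg]
  simp only [if_true, Bool.false_eq_true, if_false, one_smul, neg_smul, Fin.isValue, one_ne_zero,
    Fin.reduceEq]
  rw [hcr]
  generalize cr (pv A 1) (pv A 2) = u at *
  generalize cr (pv A 2) (pv A 0) = v at *
  generalize cr (pv A 0) (pv A 1) = w at *
  have n1 : ‖-u + -v + -w‖ = ‖u + v + w‖ := by
    rw [← norm_neg]; congr 1; abel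
  have n2 : ‖-u + -v + w‖ = ‖u + v - w‖ := by
    rw [← norm_neg]; congr 1; abel
  have n3 : ‖-u + v + -w‖ = ‖u - v + w‖ := by
    rw [← norm_neg]; congr 1; abel
  have n4 : ‖u + -v + -w‖ = ‖-u + v + w‖ := by
    rw [← norm_neg]; congr 1; abel
  have n5 : ‖u + v + -w‖ = ‖u + v - w‖ := by congr 1
  have n6 : ‖u + -v + w‖ = ‖u - v + w‖ := by congr 1
  rw [n1, n2, n3, n4]
  try rw [n5]
  try rw [n6]
  linarith

/-! ### Volumes -/

/-- half octahedra -/
def half (i : Fin 3) (b : Bool) : Set E3 := {y | 0 < sg b * y i ∧ y ∈ octa (5/12)}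

lemma meas_half (i : Fin 3) (b : Bool) : MeasurableSet (half i b) := by
  have c0 : Continuous (fun x : E3 => sg b * x i) := by fun_prop
  exact (isOpen_lt continuous_const c0).measurableSet.inter (isClosed_octa _).measurableSet

lemma octa_smul {r : ℝ} (hr : 0 < r) : octa r = r • octa 1 := by
  ext x
  rw [mem_smul_set_iff_inv_smul_mem₀ hr.ne']
  simp only [octa, mem_ofPred_eq, PiLp.smul_apply, smul_eq_mul, abs_mul, abs_inv, abs_of_pos hr,
    ← mul_add, inv_mul_le_iff₀ hr, mul_one]

lemma vol_octa {r : ℝ} (hr : 0 < r) : volume (octa r) = ENNReal.ofReal (r ^ 3) * volume (octa 1) := by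
  rw [octa_smul hr, Measure.addHaar_smul, finrank_euclideanSpace_fin, abs_of_pos (by positivity)]

lemma vol_half (i : Fin 3) : volume (half i true) + volume (half i false) ≤ volume (octa (5/12)) := by
  have hd : Disjoint (half i true) (half i false) := by
    rw [Set.disjoint_left]
    rintro x ⟨h1, _⟩ ⟨h2, _⟩
    simp [sg] at h1 h2
    linarith
  rw [← measure_union hd (meas_half i false)]
  apply measure_mono
  rintro x (h | h)
  · exact h.2
  · exact h.2

/-- the caps cut off -/
lemma cover : octa (13/12) ⊆ trunc ∪ ⋃ ib : Fin 3 × Bool,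
    ((sg ib.2 * (2/3)) • (EuclideanSpace.single ib.1 1 : E3)) +ᵥ half ib.1 ib.2 := by
  intro x hx
  by_cases ht : x ∈ trunc
  · exact Or.inl ht
  right
  simp only [octa, mem_ofPred_eq] at hx
  have : ∃ i : Fin 3, 2/3 < |x i| := by
    by_contra hcon
    push Not at hcon
    exact ht ⟨hx, hcon 0, hcon 1, hcon 2⟩
  obtain ⟨i, hi⟩ := this
  obtain ⟨b, hb⟩ := exists_sg (x i)
  refine mem_iUnion.2 ⟨(i, b), x - (sg b * (2/3)) • (EuclideanSpace.single i 1 : E3), ?_, ?_⟩
  · have hyi : (x - (sg b * (2/3)) • (EuclideanSpace.single i 1 : E3)) i = x i - sg b * (2/3) := by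
      simp
    have hs : sg b * (x i - sg b * (2/3)) = |x i| - 2/3 := by
      have := sg_sq b
      rw [mul_sub, hb, ← mul_assoc, this, one_mul]
    have habs : |x i - sg b * (2/3)| = |x i| - 2/3 := by
      have h1 : |sg b * (x i - sg b * (2/3))| = |x i - sg b * (2/3)| := by
        rw [abs_mul, sg_abs, one_mul]
      rw [← h1, hs, abs_of_pos (by linarith)]
    constructor
    · simp only [hyi, hs]; linarith
    · simp only [octa, mem_ofPred_eq]
      fin_cases i
      · simp at habs hi ⊢
        linarith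
      · simp at habs hi ⊢
        linarith
      · simp at habs hi ⊢
        linarith
  · simp only [vadd_eq_add]; abel

lemma volume_lt : volume (octa 1) < volume trunc := by
  set v := volume (octa 1) with hv
  have hvfin : v ≠ ⊤ := (isCompact_octa 1).measure_lt_top.ne
  have hvpos : 0 < v := by
    have := body_octa.interior_nonempty
    exact (isOpen_interior.measure_pos volume this).trans_le (measure_mono interior_subset)
  have h1 : volume (octa (13/12)) ≤ volume trunc + ∑ ib : Fin 3 × Bool, volume (half ib.1 ib.2) := by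
    calc volume (octa (13/12)) ≤ _ := measure_mono cover
      _ ≤ volume trunc + volume (⋃ ib : Fin 3 × Bool,
          ((sg ib.2 * (2/3)) • (EuclideanSpace.single ib.1 1 : E3)) +ᵥ half ib.1 ib.2) :=
          measure_union_le _ _
      _ ≤ volume trunc + ∑ ib : Fin 3 × Bool, volume
          (((sg ib.2 * (2/3)) • (EuclideanSpace.single ib.1 1 : E3)) +ᵥ half ib.1 ib.2) := by
          gcongr
          exact measure_iUnion_fintype_le _ _
      _ = _ := by simp only [measure_vadd]
  have h2 : ∑ ib : Fin 3 × Bool, volume (half ib.1 ib.2) ≤ 3 * volume (octa (5/12)) := by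
    rw [Fintype.sum_prod_type, Fin.sum_univ_three]
    simp only [Fintype.sum_bool]
    have a0 := vol_half 0
    have a1 := vol_half 1
    have a2 := vol_half 2
    calc _ ≤ volume (octa (5/12)) + volume (octa (5/12)) + volume (octa (5/12)) :=
          add_le_add (add_le_add a0 a1) a2
      _ = _ := by ring
  rw [vol_octa (by norm_num : (0:ℝ) < 13/12)] at h1
  rw [vol_octa (by norm_num : (0:ℝ) < 5/12)] at h2
  have htfin : volume trunc ≠ ⊤ := isCompact_trunc.measure_lt_top.ne
  have h3 := h1.trans (add_le_add_right h2 _)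
  by_contra hcon
  have hle : volume trunc ≤ v := not_lt.1 hcon
  have h4 : ENNReal.ofReal ((13/12) ^ 3) * v ≤ v + 3 * (ENNReal.ofReal ((5/12) ^ 3) * v) :=
    h3.trans (add_le_add_left hle _)
  have h5 := ENNReal.toReal_mono (by finiteness) h4
  rw [ENNReal.toReal_add hvfin (by finiteness), ENNReal.toReal_mul, ENNReal.toReal_mul,
    ENNReal.toReal_mul, ENNReal.toReal_ofReal (by norm_num), ENNReal.toReal_ofReal (by norm_num)] at h5
  have h6 : 0 < v.toReal := ENNReal.toReal_pos hvpos.ne' hvfin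
  norm_num at h5
  linarith

/-- There are centrally symmetric convex bodies `C₁, C₂` in `ℝ³` such that the surface area of
`A(C₁)` is at most the surface area of `A(C₂)` for every nonsingular affine map `A`, but the
volume of `C₁` is greater than the volume of `C₂`. -/
theorem result :
    ∃ C₁ C₂ : Set (EuclideanSpace ℝ (Fin 3)),
      IsSymmetricConvexBody C₁ ∧ IsSymmetricConvexBody C₂ ∧
      (∀ A : EuclideanSpace ℝ (Fin 3) ≃ᵃ[ℝ] EuclideanSpace ℝ (Fin 3),
        surfaceArea (A '' C₁) ≤ surfaceArea (A '' C₂)) ∧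
      volume C₂ < volume C₁ :=
  ⟨trunc, octa 1, body_trunc, body_octa,
    fun A => (upper A).trans ((ENNReal.ofReal_le_ofReal (sum_ineq A)).trans (lower A)), volume_lt⟩

end Pool.Agent.Results.MP_8228af_gt.Hlawka
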